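import Pool.Agent.H256R2.SC.V1
import Pool.Agent.N201.SP.Base

set_option autoImplicit false
set_option linter.unusedSectionVars false

/-! # Counting members of a family of integer vectors in residue classes to several moduli -/

namespace Pool.Agent.N542.PU

open Finset Polynomial
open Pool.Agent.H256R2.SC (crt_int)
open Pool.Agent.H474R2.PG (rho)

open scoped Classical

/-- the residues (in `[0, p)`) of a vector -/
def res (m p : ℕ) (x : Fin m → ℤ) : Fin m → ℕ := fun j => (x j % (p : ℤ)).toNat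

theorem res_lt {m p : ℕ} (hp : 0 < p) (x : Fin m → ℤ) (j : Fin m) : res m p x j < p := by
  unfold res
  have h1 := Int.emod_lt_of_pos (x j) (show (0 : ℤ) < p by exact_mod_cast hp)
  have h2 := Int.emod_nonneg (x j) (show (p : ℤ) ≠ 0 by exact_mod_cast hp.ne')
  omega

theorem res_eq_iff {m p : ℕ} (hp : 0 < p) (x : Fin m → ℤ) (b : Fin m → ℕ) (hb : ∀ j, b j < p) :
    res m p x = b ↔ ∀ j, (p : ℤ) ∣ x j - b j := by
  rw [funext_iff]
  refine forall_congr' fun j => ?_
  unfold res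
  have h1 := Int.emod_lt_of_pos (x j) (show (0 : ℤ) < p by exact_mod_cast hp)
  have h2 := Int.emod_nonneg (x j) (show (p : ℤ) ≠ 0 by exact_mod_cast hp.ne')
  have h3 : ((b j : ℤ)) % (p : ℤ) = b j := Int.emod_eq_of_lt (by positivity) (by exact_mod_cast hb j)
  rw [← Int.emod_eq_emod_iff_emod_sub_eq_zero.trans (Int.dvd_iff_emod_eq_zero).symm, h3]
  omega

theorem dvd_sub_res {m p : ℕ} (hp : 0 < p) (x : Fin m → ℤ) (j : Fin m) :
    (p : ℤ) ∣ x j - (res m p x j : ℤ) :=
  (res_eq_iff hp x (res m p x) (res_lt hp x)).1 rfl j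

/-- the number of the members of a family whose residues are in given sets -/
theorem count_vec {α : Type} (m : ℕ) (T : Finset ℕ) (hp : ∀ p ∈ T, p.Prime)
    (Bs : ℕ → Finset (Fin m → ℕ)) (hBs : ∀ p ∈ T, ∀ b ∈ Bs p, ∀ j, b j < p)
    (𝒜 : Finset α) (w : α → Fin m → ℤ) (N E : ℝ) (hE : 0 ≤ E)
    (hA : ∀ c : Fin m → ℤ,
      |((𝒜.filter (fun a => ∀ j, ((∏ p ∈ T, p : ℕ) : ℤ) ∣ w a j - c j)).card : ℝ) -
      N / ((∏ p ∈ T, p : ℕ) : ℝ) ^ m| ≤ E) :
    |((𝒜.filter (fun a => ∀ p ∈ T, res m p (w a) ∈ Bs p)).card : ℝ) -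
      N * ∏ p ∈ T, (((Bs p).card : ℝ) / (p : ℝ) ^ m)| ≤
      ((∏ p ∈ T, p : ℕ) : ℝ) ^ m * E := by
  set q : ℕ := ∏ p ∈ T, p with hq
  have hq0 : 0 < q := Finset.prod_pos fun i hi => (hp i hi).pos
  have hqR : (0 : ℝ) < q := by exact_mod_cast hq0
  have hcop : ∀ i ∈ T, ∀ j ∈ T, i ≠ j → IsCoprime ((i : ℕ) : ℤ) ((j : ℕ) : ℤ) :=
    fun i hi j hj hij => Nat.isCoprime_iff_coprime.mpr
      ((Nat.coprime_primes (hp i hi) (hp j hj)).2 hij)
  have hqdvd : ∀ y : ℤ, (∀ i ∈ T, (i : ℤ) ∣ y) ↔ (q : ℤ) ∣ y := by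
    intro y
    constructor
    · intro h
      have : ((q : ℕ) : ℤ) = ∏ i ∈ T, ((i : ℕ) : ℤ) := by rw [hq]; push_cast; rfl
      rw [this]
      exact Finset.prod_dvd_of_coprime (fun i hi j hj hij => hcop i hi j hj hij) h
    · intro h i hi
      refine dvd_trans ?_ h
      have : i ∣ q := Finset.dvd_prod_of_mem _ hi
      exact_mod_cast this
  set F := 𝒜.filter (fun a => ∀ p ∈ T, res m p (w a) ∈ Bs p) with hF
  set τ : α → (∀ i ∈ T, Fin m → ℕ) := fun a i _ => res m i (w a) with hτ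
  have hmaps : ∀ x ∈ F, τ x ∈ T.pi (fun i => Bs i) := by
    intro x hx
    rw [hF, mem_filter] at hx
    rw [Finset.mem_pi]
    intro i hi
    exact hx.2 i hi
  have hcard := Finset.card_eq_sum_card_fiberwise hmaps
  -- the classes
  have hc : ∀ b : (∀ i ∈ T, Fin m → ℕ), ∃ c : Fin m → ℤ, ∀ j, ∀ i (hi : i ∈ T),
      (i : ℤ) ∣ c j - (b i hi j : ℤ) := by
    intro b
    have h1 : ∀ j, ∃ c : ℤ, ∀ i ∈ T, (i : ℤ) ∣ c - (if h : i ∈ T then (b i h j : ℤ) else 0) :=
      fun j => crt_int T (fun i => ((i : ℕ) : ℤ)) hcop _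
    choose c hc using h1
    refine ⟨c, fun j i hi => ?_⟩
    have := hc j i hi
    rwa [dif_pos hi] at this
  choose c hc using hc
  have hfib : ∀ b ∈ T.pi (fun i => Bs i), F.filter (fun x => τ x = b) =
      𝒜.filter (fun x => ∀ j, (q : ℤ) ∣ w x j - c b j) := by
    intro b hb
    rw [Finset.mem_pi] at hb
    ext x
    simp only [hF, Finset.mem_filter]
    have hres : τ x = b ↔ ∀ i (hi : i ∈ T), ∀ j, (i : ℤ) ∣ w x j - (b i hi j : ℤ) := by
      constructor
      · intro h i hi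
        have h1 : res m i (w x) = b i hi := by rw [← h]
        exact (res_eq_iff (hp i hi).pos (w x) (b i hi) (hBs i hi _ (hb i hi))).1 h1
      · intro h
        funext i hi
        exact (res_eq_iff (hp i hi).pos (w x) (b i hi) (hBs i hi _ (hb i hi))).2 (h i hi)
    constructor
    · rintro ⟨⟨h1, h2⟩, h3⟩
      refine ⟨h1, fun j => (hqdvd _).1 fun i hi => ?_⟩
      have h4 := dvd_sub (hres.1 h3 i hi j) (hc b j i hi)
      have e : w x j - (b i hi j : ℤ) - (c b j - (b i hi j : ℤ)) = w x j - c b j := by ring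
      rwa [e] at h4
    · rintro ⟨h0, h⟩
      have h3 : τ x = b := by
        rw [hres]
        intro i hi j
        have h4 := dvd_add ((hqdvd _).2 (h j) i hi) (hc b j i hi)
        have e : w x j - c b j + (c b j - (b i hi j : ℤ)) = w x j - (b i hi j : ℤ) := by ring
        rwa [e] at h4
      refine ⟨⟨h0, fun i hi => ?_⟩, h3⟩
      have h4 : res m i (w x) = b i hi := by rw [← h3]
      rw [h4]
      exact hb i hi
  have h1 : (F.card : ℝ) = ∑ b ∈ T.pi (fun i => Bs i),
      ((𝒜.filter (fun x => ∀ j, (q : ℤ) ∣ w x j - c b j)).card : ℝ) := by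
    rw [hcard]
    push_cast
    refine Finset.sum_congr rfl fun b hb => ?_
    rw [hfib b hb]
  have h2 : N * ∏ i ∈ T, (((Bs i).card : ℝ) / (i : ℝ) ^ m) =
      ∑ b ∈ T.pi (fun i => Bs i), N / (q : ℝ) ^ m := by
    rw [Finset.sum_const, Finset.card_pi, nsmul_eq_mul, Finset.prod_div_distrib,
      Finset.prod_pow, hq]
    push_cast
    ring
  rw [h1, h2, ← Finset.sum_sub_distrib]
  refine (Finset.abs_sum_le_sum_abs _ _).trans ?_
  refine (Finset.sum_le_sum fun b _ => hA (c b)).trans ?_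
  rw [Finset.sum_const, Finset.card_pi, nsmul_eq_mul]
  have h4 : ((∏ i ∈ T, (Bs i).card : ℕ) : ℝ) ≤ (q : ℝ) ^ m := by
    rw [hq]
    have : ∏ i ∈ T, (Bs i).card ≤ (∏ i ∈ T, i) ^ m := by
      rw [← Finset.prod_pow]
      refine Finset.prod_le_prod' fun i hi => ?_
      have h5 : Bs i ⊆ Fintype.piFinset (fun _ : Fin m => range i) := by
        intro b hb
        rw [Fintype.mem_piFinset]
        exact fun j => mem_range.2 (hBs i hi b hb j)
      have h6 := card_le_card h5
      rw [Fintype.card_piFinset, prod_const, card_range, card_univ, Fintype.card_fin] at h6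
      exact h6
    exact_mod_cast this
  exact mul_le_mul_of_nonneg_right h4 hE

/-- a family which is well distributed modulo `W q` is well distributed modulo `q` in a class modulo `W` -/
theorem crt_two {d : ℕ} (P q : ℕ) (hc : Nat.Coprime P q) (b c : Fin d → ℤ) :
    ∃ ρ : Fin d → ℤ, ∀ x : Fin d → ℤ, (∀ j, ((P * q : ℕ) : ℤ) ∣ x j - ρ j) ↔
      ((∀ j, (P : ℤ) ∣ x j - b j) ∧ ∀ j, (q : ℤ) ∣ x j - c j) := by
  obtain ⟨u, v, huv⟩ := Nat.isCoprime_iff_coprime.mpr hc
  refine ⟨fun j => b j + P * u * (c j - b j), fun x => ?_⟩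
  constructor
  · intro h
    constructor
    · intro j
      have h1 := h j
      push_cast at h1
      have hP' : (P : ℤ) ∣ x j - (b j + P * u * (c j - b j)) := (dvd_mul_right _ _).trans h1
      have e : x j - b j = (x j - (b j + P * u * (c j - b j))) + P * (u * (c j - b j)) := by ring
      rw [e]
      exact dvd_add hP' (dvd_mul_right _ _)
    · intro j
      have h1 := h j
      push_cast at h1
      have hq' : (q : ℤ) ∣ x j - (b j + P * u * (c j - b j)) := (dvd_mul_left _ _).trans h1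
      have e : x j - c j = (x j - (b j + P * u * (c j - b j))) - q * (v * (c j - b j)) := by
        linear_combination (c j - b j) * huv
      rw [e]
      exact dvd_sub hq' (dvd_mul_right _ _)
  · rintro ⟨h1, h2⟩ j
    push_cast
    refine IsCoprime.mul_dvd (Nat.isCoprime_iff_coprime.mpr hc) ?_ ?_
    · have e : x j - (b j + P * u * (c j - b j)) = (x j - b j) - P * (u * (c j - b j)) := by ring
      rw [e]
      exact dvd_sub (h1 j) (dvd_mul_right _ _)
    · have e : x j - (b j + P * u * (c j - b j)) = (x j - c j) + q * (v * (c j - b j)) := by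
        linear_combination (-(c j - b j)) * huv
      rw [e]
      exact dvd_add (h2 j) (dvd_mul_right _ _)

/-- the residue vectors with the `j`-th coordinate a root of `P` and no other coordinate in `U` -/
noncomputable def Bset {n : ℕ} (p : ℕ) (P : ℤ[X]) (U : Finset ℕ) (j : Fin n) : Finset (Fin n → ℕ) :=
  Fintype.piFinset fun i => if i = j then (range p).filter (fun a : ℕ => (p : ℤ) ∣ P.eval (a : ℤ))
    else range p \ U

lemma Bset_lt {n : ℕ} (p : ℕ) (P : ℤ[X]) (U : Finset ℕ) (j : Fin n) : ∀ b ∈ Bset p P U j, ∀ i, b i < p := by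
  intro b hb i
  unfold Bset at hb
  rw [Fintype.mem_piFinset] at hb
  have h := hb i
  split_ifs at h with hi
  · exact mem_range.1 (mem_filter.1 h).1
  · exact mem_range.1 (mem_sdiff.1 h).1

lemma card_Bset {n : ℕ} (p : ℕ) (P : ℤ[X]) (U : Finset ℕ) (hU : U ⊆ range p) (j : Fin n) :
    (Bset p P U j).card = rho P p * (p - U.card) ^ (n - 1) := by
  unfold Bset
  rw [Fintype.card_piFinset, ← mul_prod_erase univ _ (mem_univ j)]
  congr 1
  · rw [if_pos rfl]
    rfl
  · have : ∀ i ∈ univ.erase j, (if i = j then (range p).filter (fun a : ℕ => (p : ℤ) ∣ P.eval (a : ℤ))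
        else range p \ U).card = p - U.card := by
      intro i hi
      rw [if_neg (ne_of_mem_erase hi), card_sdiff_of_subset hU, card_range]
    rw [prod_congr rfl this, prod_const, card_erase_of_mem (mem_univ j), card_univ, Fintype.card_fin]

/-- the density of `Bj` -/
lemma dens_Bset {n : ℕ} (p : ℕ) (hp : 0 < p) (P : ℤ[X]) (U : Finset ℕ) (hU : U ⊆ range p) (j : Fin n) (θ : ℝ)
    (hθ : (n : ℝ) * ((U.card : ℝ) / p) ≤ θ) :
    ((Bset p P U j).card : ℝ) / (p : ℝ) ^ n ≤ (rho P p : ℝ) / p ∧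
      (1 - θ) * ((rho P p : ℝ) / p) ≤ ((Bset p P U j).card : ℝ) / (p : ℝ) ^ n := by
  have hp0 : (0 : ℝ) < p := by exact_mod_cast hp
  have hUp : U.card ≤ p := by
    have := card_le_card hU
    rwa [card_range] at this
  have hn : 1 ≤ n := by
    have := j.isLt
    omega
  have hcard : ((Bset p P U j).card : ℝ) / (p : ℝ) ^ n =
      (rho P p : ℝ) / p * (1 - (U.card : ℝ) / p) ^ (n - 1) := by
    rw [card_Bset p P U hU j]
    push_cast
    rw [Nat.cast_sub hUp]
    have e1 : (p : ℝ) ^ n = p * p ^ (n - 1) := by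
      rw [← pow_succ']
      congr 1
      omega
    have e2 : (1 : ℝ) - (U.card : ℝ) / p = ((p : ℝ) - U.card) / p := by
      field_simp
    rw [e1, e2, div_pow]
    field_simp
  rw [hcard]
  have hr0 : 0 ≤ (rho P p : ℝ) / p := by positivity
  have hu1 : (U.card : ℝ) / p ≤ 1 := by
    rw [div_le_one hp0]
    exact_mod_cast hUp
  have hu0 : 0 ≤ (U.card : ℝ) / p := by positivity
  constructor
  · have h1 : (1 - (U.card : ℝ) / p) ^ (n - 1) ≤ 1 := pow_le_one₀ (by linarith) (by linarith)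
    calc _ ≤ (rho P p : ℝ) / p * 1 := mul_le_mul_of_nonneg_left h1 hr0
      _ = _ := mul_one _
  · have h1 := one_add_mul_le_pow (show (-2:ℝ) ≤ -((U.card : ℝ) / p) by linarith) (n - 1)
    have e3 : (1:ℝ) + -((U.card : ℝ) / p) = 1 - (U.card : ℝ) / p := by ring
    rw [e3] at h1
    have h2 : ((n - 1 : ℕ) : ℝ) ≤ n := by exact_mod_cast Nat.sub_le n 1
    have h3 : ((n - 1 : ℕ) : ℝ) * ((U.card : ℝ) / p) ≤ θ :=
      (mul_le_mul_of_nonneg_right h2 hu0).trans hθ
    rw [mul_comm]
    apply mul_le_mul_of_nonneg_left _ hr0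
    linarith

end Pool.Agent.N542.PU
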