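import Pool.Agent.N542.PU.Main

set_option autoImplicit false
set_option maxHeartbeats 4000000

/-! Strings of composite values and error terms near the integral parts of smooth functions of a prime. -/

namespace Pool.Agent.N542.PU

open Finset Filter Topology Polynomial MeasureTheory
open Pool.Agent.N542.PP (SV)
open Pool.Agent.W147.PS (ev_pow)
open Pool.Agent.N201.SP (cnt cnt_eq li_int li_sub growth')

open scoped Classical

/-- size of smoothly varying functions of positive index -/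
lemma sv_size {c : ℝ} {F : ℕ → ℝ → ℝ} (h : SV c F) (hc : 0 < c) (σ : ℤ) : ∃ D : ℕ,
    ∀ᶠ Z : ℝ in atTop, ∀ t : ℝ, Z < t → t ≤ 2 * Z →
      Z ^ (c / 4) ≤ F 0 (t + σ) ∧ F 0 (t + σ) ≤ Z ^ D := by
  obtain ⟨D, T, hT1, hT⟩ := h.growth hc
  refine ⟨D + 1, ?_⟩
  have hT0 : 0 < T := by linarith
  obtain ⟨hFT, -, -, -⟩ := hT T T le_rfl le_rfl
  set A : ℝ := F 0 T / T ^ (c / 2) with hA
  have hA0 : 0 < A := by positivity
  set B : ℝ := F 0 T / T ^ D with hB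
  have hB0 : 0 < B := by positivity
  have e1 : ∀ᶠ Z : ℝ in atTop, Z ^ (c / 4) * (1 / (A * (1 / 2 : ℝ) ^ (c / 2))) ≤ Z ^ (c / 2) := by
    have := ev_pow (c / 4) (c / 2) (1 / (A * (1 / 2 : ℝ) ^ (c / 2))) (by linarith)
    filter_upwards [this] with Z hZ
    rw [mul_comm]
    exact hZ
  filter_upwards [e1, eventually_ge_atTop (2 * T), eventually_ge_atTop (2 * |(σ : ℝ)|),
    eventually_ge_atTop (1 : ℝ), eventually_ge_atTop (B * 3 ^ D)] with Z hZ hZT hZσ hZ1 hZB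
  intro t ht1 ht2
  have hZ0 : 0 < Z := by linarith
  have hσ := abs_le.1 (le_refl |(σ : ℝ)|)
  have hy1 : Z / 2 ≤ t + σ := by linarith [hσ.1]
  have hy2 : t + σ ≤ 3 * Z := by linarith [hσ.2]
  have hyT : T ≤ t + σ := by linarith
  have hy0 : 0 < t + σ := by linarith
  obtain ⟨a1, a2, a3, a4⟩ := hT T (t + σ) le_rfl hyT
  constructor
  · rw [le_div_iff₀ (by positivity)] at a4
    refine le_trans ?_ a4
    have h1 : (Z / 2) ^ (c / 2) ≤ (t + σ) ^ (c / 2) := Real.rpow_le_rpow (by linarith) hy1 (by linarith)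
    have h2 : (Z / 2) ^ (c / 2) = Z ^ (c / 2) * (1 / 2 : ℝ) ^ (c / 2) := by
      rw [← Real.mul_rpow hZ0.le (by norm_num)]
      congr 1
      ring
    have h3 : A * (Z ^ (c / 2) * (1 / 2 : ℝ) ^ (c / 2)) ≤ A * (t + σ) ^ (c / 2) := by
      rw [← h2]
      exact mul_le_mul_of_nonneg_left h1 hA0.le
    refine le_trans ?_ h3
    rw [mul_one_div, div_le_iff₀ (by positivity)] at hZ
    linarith
  · rw [div_le_iff₀ (by positivity)] at a3
    refine a3.trans ?_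
    have h1 : (t + σ) ^ D ≤ (3 * Z) ^ D := pow_le_pow_left₀ hy0.le hy2 D
    calc B * (t + σ) ^ D ≤ B * (3 * Z) ^ D := mul_le_mul_of_nonneg_left h1 hB0.le
      _ = (B * 3 ^ D) * Z ^ D := by rw [mul_pow]; ring
      _ ≤ Z * Z ^ D := mul_le_mul_of_nonneg_right hZB (by positivity)
      _ = Z ^ (D + 1) := by ring

/-- a multiple of a prime number which is bigger than the prime is not prime -/
lemma not_prime_natAbs {z : ℤ} {p : ℕ} (hp : p.Prime) (h1 : (p : ℤ) ∣ z) (h2 : (p : ℤ) < |z|) :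
    ¬ z.natAbs.Prime := by
  intro h
  have h3 : p ∣ z.natAbs := Int.natCast_dvd.1 h1
  rcases (Nat.dvd_prime h).1 h3 with h4 | h4
  · exact hp.one_lt.ne' h4
  · rw [h4, ← Int.natCast_natAbs z] at h2
    exact lt_irrefl _ h2

/-- the error terms at the ends of a string of composite values -/
lemma err_at (𝓕 : Finset ℤ[X]) (w ν : ℤ[X] → ℝ) (hwν : ∀ f ∈ 𝓕, 0 ≤ w f ∧ 0 ≤ ν f) (x K : ℕ)
    (hx : 4 ≤ x) (Λ H : ℝ) (hH : 0 ≤ H) (hK : H ≤ K + 1) (hΛ : Real.log ((x + K : ℕ) : ℝ) ≤ Λ)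
    (hcomp : ∀ f ∈ 𝓕, ∀ n : ℕ, x - 1 < n → n ≤ x + K → ¬ (f.eval (n : ℤ)).toNat.Prime) :
    ∃ N : ℕ, (N = x - 1 ∨ N = x + K) ∧ (∑ f ∈ 𝓕, w f * ν f) * (H / Λ) / 2 ≤
      |∑ f ∈ 𝓕, w f * ((cnt f N : ℝ) - ν f * ∫ t in (2 : ℝ)..N, 1 / Real.log t)| := by
  have hcnt : ∀ f ∈ 𝓕, cnt f (x + K) = cnt f (x - 1) := fun f hf =>
    cnt_eq f (by omega) (hcomp f hf)
  have hya : ((x - 1 : ℕ) : ℝ) = x - 1 := by
    rw [Nat.cast_sub (by omega)]; simp
  have hx3 : (3 : ℝ) ≤ ((x - 1 : ℕ) : ℝ) := by exact_mod_cast (by omega : 3 ≤ x - 1)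
  have hab : ((x - 1 : ℕ) : ℝ) ≤ ((x + K : ℕ) : ℝ) := by
    have : x - 1 ≤ x + K := by omega
    exact_mod_cast this
  have hlogb0 : 0 < Real.log ((x + K : ℕ) : ℝ) := Real.log_pos (by linarith)
  have hΛ0 : 0 < Λ := by linarith
  set Li : ℝ → ℝ := fun y => ∫ t in (2 : ℝ)..y, 1 / Real.log t with hLi
  have hLs : (((x + K : ℕ) : ℝ) - ((x - 1 : ℕ) : ℝ)) / Real.log ((x + K : ℕ) : ℝ) ≤
      Li ((x + K : ℕ) : ℝ) - Li ((x - 1 : ℕ) : ℝ) := li_sub (by linarith) hab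
  have hd : H ≤ ((x + K : ℕ) : ℝ) - ((x - 1 : ℕ) : ℝ) := by
    rw [hya]; push_cast; linarith
  have hL2 : H / Λ ≤ Li ((x + K : ℕ) : ℝ) - Li ((x - 1 : ℕ) : ℝ) := by
    refine le_trans ?_ hLs
    rw [div_le_div_iff₀ hΛ0 hlogb0]
    exact mul_le_mul hd hΛ hlogb0.le (hH.trans hd)
  set G : ℝ := ∑ f ∈ 𝓕, w f * ν f with hG
  have hG0 : 0 ≤ G := Finset.sum_nonneg fun f hf => mul_nonneg (hwν f hf).1 (hwν f hf).2
  set E : ℕ → ℝ := fun N => ∑ f ∈ 𝓕, w f * ((cnt f N : ℝ) - ν f * Li N) with hE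
  have hdiff : G * (H / Λ) ≤ E (x - 1) - E (x + K) := by
    have h1 : E (x - 1) - E (x + K) = G * (Li ((x + K : ℕ) : ℝ) - Li ((x - 1 : ℕ) : ℝ)) := by
      rw [hE, hG]
      simp only
      rw [← Finset.sum_sub_distrib, Finset.sum_mul]
      refine Finset.sum_congr rfl fun f hf => ?_
      rw [hcnt f hf]
      ring
    rw [h1]
    exact mul_le_mul_of_nonneg_left hL2 hG0
  by_cases hcase : G * (H / Λ) / 2 ≤ |E (x + K)|
  · exact ⟨x + K, Or.inr rfl, hcase⟩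
  · refine ⟨x - 1, Or.inl rfl, ?_⟩
    push Not at hcase
    have h1 := neg_abs_le (E (x + K))
    have h2 := le_abs_self (E (x - 1))
    have h3 : G * (H / Λ) / 2 ≤ |E (x - 1)| := by linarith
    exact h3

theorem err_terms {r n : ℕ} (hn : 1 ≤ n) (c : Fin r → ℝ) (F : Fin r → ℕ → ℝ → ℝ)
    (hSV : ∀ j, SV (c j) (F j)) (hcn : ∀ j, ∀ n : ℕ, c j ≠ n) (hc0 : ∀ j, 0 < c j)
    (φ : Fin n → Fin r) (σ : Fin n → ℤ) (hφσ : ∀ k l, φ k = φ l → σ k = σ l → k = l)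
    (hcard : ∀ j, ((univ.filter (fun k => φ k = j)).card : ℝ) < c j + 1)
    (hsp : Spread c φ)
    (𝓕 : Finset ℤ[X]) (h𝓕 : ∀ f ∈ 𝓕, 0 < f.natDegree)
    (d b : ℕ) (hd : 0 < d) (hb : b.Coprime d) (ε : ℝ) (hε : 0 < ε) (hε1 : ε ≤ 1 / 2) :
    ∃ κ : ℝ, 0 < κ ∧ ∀ᶠ Z : ℝ in atTop,
      ∃ G : Finset ℕ, Z ^ (1 - ε) ≤ (G.card : ℝ) ∧ ∀ p ∈ G, p.Prime ∧ p ≡ b [MOD d] ∧
        Z < p ∧ (p : ℝ) ≤ (1 + ε) * Z ∧ ∀ k,
        (∀ m : ℤ, |(m : ℝ) - F (φ k) 0 ((p : ℝ) + σ k)| ≤ κ * Real.log Z * Real.log (Real.log Z) →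
          ∀ f ∈ 𝓕, ¬ (f.eval m).natAbs.Prime) ∧
        ∀ w ν : ℤ[X] → ℝ, (∀ f ∈ 𝓕, 0 ≤ w f ∧ 0 ≤ ν f) →
          ∃ N : ℕ, |(N : ℝ) - F (φ k) 0 ((p : ℝ) + σ k)| ≤ (Real.log Z) ^ 2 ∧
            κ * (∑ f ∈ 𝓕, w f * ν f) * Real.log (Real.log Z) ≤
              |∑ f ∈ 𝓕, w f * ((cnt f N : ℝ) - ν f * ∫ t in (2 : ℝ)..N, 1 / Real.log t)| := by
  -- sizes
  choose Dk hDk using fun k => sv_size (hSV (φ k)) (hc0 (φ k)) (σ k)
  have hnN : Nonempty (Fin n) := ⟨⟨0, hn⟩⟩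
  obtain ⟨kM, -, hkM⟩ := Finset.exists_max_image (univ : Finset (Fin n)) Dk univ_nonempty
  obtain ⟨km, -, hkm⟩ := Finset.exists_min_image (univ : Finset (Fin n)) (fun k => c (φ k))
    univ_nonempty
  set δ₁ : ℝ := c (φ km) / 4 with hδ₁
  have hδ₁0 : 0 < δ₁ := by have := hc0 (φ km); positivity
  set D₁ : ℕ := Dk kM with hD₁
  -- growth of the polynomials
  have hx₀ : ∀ f : ℤ[X], ∃ x₀ : ℤ, f ∈ 𝓕 → ∀ x : ℤ, x₀ ≤ x → x ≤ 2 * |f.eval x| := by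
    intro f
    by_cases h : f ∈ 𝓕
    · obtain ⟨x₀, hx₀⟩ := growth' f (h𝓕 f h)
      exact ⟨x₀, fun _ => hx₀⟩
    · exact ⟨0, fun h' => absurd h' h⟩
  choose x₀ hx₀ using hx₀
  set X₀ : ℤ := ∑ f ∈ 𝓕, |x₀ f| with hX₀
  have hX₀f : ∀ f ∈ 𝓕, x₀ f ≤ X₀ := by
    intro f hf
    exact (le_abs_self _).trans (Finset.single_le_sum (f := fun f => |x₀ f|)
      (fun _ _ => abs_nonneg _) hf)
  set ε' : ℝ := min ε (δ₁ / 2) with hε'
  have hε'0 : 0 < ε' := lt_min hε (by positivity)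
  have hε'1 : ε' ≤ ε := min_le_left _ _
  have hε'2 : ε' ≤ δ₁ / 2 := min_le_right _ _
  obtain ⟨κ₀, δ, hκ₀, hδ, htr⟩ := transfer hn c (fun _ => 0) F hSV hcn φ σ hφσ
    (by simpa using hcard) (by simpa using hsp) 𝓕 h𝓕 2 0 d b hd hb ε' hε'0 (hε'1.trans hε1)
  set c₁ : ℝ := min κ₀ 1 / 4 with hc₁
  have hc₁0 : 0 < c₁ := by positivity
  have hc₁c : 4 * c₁ ≤ κ₀ := by rw [hc₁]; linarith [min_le_left κ₀ 1]
  have hc₁1 : 4 * c₁ ≤ 1 := by rw [hc₁]; linarith [min_le_right κ₀ 1]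
  set κ : ℝ := c₁ / (2 * ((D₁ : ℝ) + 1)) with hκ
  have hD₁0 : (0 : ℝ) < 2 * ((D₁ : ℝ) + 1) := by positivity
  have hκ0 : 0 < κ := by positivity
  have hκc : κ ≤ c₁ := by
    rw [hκ, div_le_iff₀ hD₁0]
    have : (0 : ℝ) ≤ D₁ := Nat.cast_nonneg _
    nlinarith
  refine ⟨κ, hκ0, ?_⟩
  have t1 : Tendsto (fun Y : ℝ => Real.log Y) atTop atTop := Real.tendsto_log_atTop
  have t2 : Tendsto (fun Y : ℝ => Real.log (Real.log Y)) atTop atTop := t1.comp t1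
  have hall : ∀ᶠ Z : ℝ in atTop, ∀ k, ∀ t : ℝ, Z < t → t ≤ 2 * Z →
      Z ^ (c (φ k) / 4) ≤ F (φ k) 0 (t + σ k) ∧ F (φ k) 0 (t + σ k) ≤ Z ^ Dk k :=
    eventually_all.2 hDk
  have hlogpow : ∀ᶠ Z : ℝ in atTop, 10 * (Real.log Z) ^ 2 ≤ Z ^ δ₁ := by
    have h1 : (fun Y : ℝ => (Real.log Y) ^ (2:ℝ)) =o[atTop] (fun Y : ℝ => Y ^ δ₁) :=
      isLittleO_log_rpow_rpow_atTop 2 hδ₁0
    filter_upwards [h1.def (show (0:ℝ) < 1 / 10 by norm_num), eventually_ge_atTop (1:ℝ)]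
      with Y hY hY1
    have hlog := Real.log_nonneg hY1
    rw [Real.norm_eq_abs, Real.norm_eq_abs, abs_of_nonneg (Real.rpow_nonneg hlog _),
      abs_of_nonneg (Real.rpow_nonneg (by linarith) _), Real.rpow_two] at hY
    linarith
  filter_upwards [htr, hall, hlogpow, t1.eventually_ge_atTop 4, t2.eventually_ge_atTop (4 / c₁),
    (tendsto_rpow_atTop hδ₁0).eventually_ge_atTop (2 * ((X₀ : ℝ) + 10)),
    ev_pow (δ₁ / 2) δ₁ 5 (by linarith), eventually_ge_atTop (4 : ℝ)]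
    with Z htr hall hlp hL4 hl4 hX₀Z hp5 hZ4
  have hZ0 : 0 < Z := by linarith
  have hZ1 : 1 ≤ Z := by linarith
  set L : ℝ := Real.log Z with hL
  set l : ℝ := Real.log L with hl
  have hl0 : 0 < l := lt_of_lt_of_le (by positivity) hl4
  have hlL : l ≤ L := by
    have := Real.log_le_sub_one_of_pos (show (0:ℝ) < L by linarith)
    rw [hl]; linarith
  have hc₁l : 4 ≤ c₁ * l := by
    rw [div_le_iff₀ hc₁0] at hl4
    linarith
  set H : ℝ := c₁ * L * l with hH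
  have hH4 : 4 ≤ H := by
    have : H = L * (c₁ * l) := by rw [hH]; ring
    rw [this]; nlinarith
  set K : ℕ := ⌊H⌋₊ with hK
  have hK1 : (K : ℝ) ≤ H := Nat.floor_le (by linarith)
  have hK2 : H < K + 1 := Nat.lt_floor_add_one H
  have hHL : 4 * H ≤ L ^ 2 := by
    have e1 : 4 * c₁ * L ≤ L := by nlinarith
    calc 4 * H = (4 * c₁ * L) * l := by rw [hH]; ring
      _ ≤ L * L := mul_le_mul e1 hlL hl0.le (by linarith)
      _ = L ^ 2 := by ring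
  obtain ⟨G, hG1, hG2⟩ := htr (Finset.Icc (-((K : ℤ) + 1)) ((K : ℤ) + 1)) (by
      intro s hs
      rw [Finset.mem_Icc] at hs
      have h1 : |(s : ℝ)| ≤ (K : ℝ) + 1 := by
        rw [abs_le]
        constructor
        · exact_mod_cast hs.1
        · exact_mod_cast hs.2
      linarith) (by
      rw [Int.card_Icc]
      have h1 : (((K : ℤ) + 1 + 1 - -((K : ℤ) + 1)).toNat : ℤ) = 2 * K + 3 := by
        rw [Int.toNat_of_nonneg (by omega)]
        ring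
      have h2 : (((((K : ℤ) + 1 + 1 - -((K : ℤ) + 1)).toNat : ℕ)) : ℝ) = 2 * K + 3 := by
        exact_mod_cast h1
      rw [h2]
      have h3 : 4 * H ≤ κ₀ * L * l := by
        have e1 : 4 * H = (4 * c₁) * (L * l) := by rw [hH]; ring
        have e2 : κ₀ * L * l = κ₀ * (L * l) := by ring
        rw [e1, e2]
        exact mul_le_mul_of_nonneg_right hc₁c (by positivity)
      linarith) (fun _ => 1) (fun _ => 0) (by
      intro j
      constructor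
      · show Z ^ (0 - δ) ≤ |(1 : ℝ)|
        rw [abs_one]
        exact Real.rpow_le_one_of_one_le_of_nonpos hZ1 (by linarith)
      · show |(1 : ℝ)| ≤ Z ^ (0 + δ)
        rw [abs_one]
        exact Real.one_le_rpow hZ1 (by linarith)) (by intro k; simp)
  refine ⟨G, (Real.rpow_le_rpow_of_exponent_le hZ1 (by linarith)).trans hG1, ?_⟩
  intro p hp
  obtain ⟨h1, h2, h3, h4, h5⟩ := hG2 p hp
  have h4' : (p : ℝ) ≤ (1 + ε) * Z := h4.trans (by nlinarith)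
  refine ⟨h1, h2, h3, h4', ?_⟩
  intro k
  obtain ⟨s1, s2⟩ := hall k (p : ℝ) h3 (by nlinarith)
  set y : ℝ := F (φ k) 0 ((p : ℝ) + σ k) with hy
  have hGood : ∀ f ∈ 𝓕, ∀ s ∈ Finset.Icc (-((K : ℤ) + 1)) ((K : ℤ) + 1),
      ∃ q : ℕ, q.Prime ∧ (q : ℝ) ≤ Z ^ ε' ∧ (q : ℤ) ∣ f.eval (⌊y⌋ + s) := by
    intro f hf s hs
    have := h5 k f hf s hs
    simp only [one_mul, eval_zero, add_zero] at this
    exact this
  have hys : Z ^ δ₁ ≤ y := (Real.rpow_le_rpow_of_exponent_le hZ1 (by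
    have := hkm k (mem_univ _)
    rw [hδ₁]
    linarith)).trans s1
  have hyD : y ≤ Z ^ D₁ := s2.trans (pow_le_pow_right₀ hZ1 (hkM k (mem_univ _)))
  have hfl1 := Int.floor_le y
  have hfl2 := Int.lt_floor_add_one y
  -- no prime values in the string
  have hno : ∀ m : ℤ, |m - ⌊y⌋| ≤ (K : ℤ) + 1 → ∀ f ∈ 𝓕, ∃ q : ℕ, q.Prime ∧ (q : ℤ) ∣ f.eval m ∧
      (q : ℤ) < |f.eval m| := by
    intro m hm f hf
    obtain ⟨q, hq, hq1, hq2⟩ := hGood f hf (m - ⌊y⌋) (Finset.mem_Icc.2 (abs_le.1 hm))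
    have e : ⌊y⌋ + (m - ⌊y⌋) = m := by ring
    rw [e] at hq2
    refine ⟨q, hq, hq2, ?_⟩
    have hmR : y - H - 2 ≤ (m : ℝ) := by
      have h6 := (abs_le.1 hm).1
      have h7 : -((K : ℝ) + 1) ≤ (m : ℝ) - ⌊y⌋ := by exact_mod_cast h6
      linarith
    have hmx : x₀ f ≤ m := by
      have h8 : (X₀ : ℝ) ≤ m := by linarith
      have h9 : X₀ ≤ m := by exact_mod_cast h8
      exact (hX₀f f hf).trans h9
    have h10 := hx₀ f hf m hmx
    have h11 : (m : ℝ) ≤ 2 * ((|f.eval m| : ℤ) : ℝ) := by exact_mod_cast h10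
    have h12 : Z ^ ε' ≤ Z ^ (δ₁ / 2) := Real.rpow_le_rpow_of_exponent_le hZ1 hε'2
    have h13 : (q : ℝ) < ((|f.eval m| : ℤ) : ℝ) := by
      have h14 : 0 < Z ^ (δ₁ / 2) := by positivity
      linarith
    exact_mod_cast h13
  constructor
  · intro m hm f hf
    have hm2 : |m - ⌊y⌋| ≤ (K : ℤ) + 1 := by
      have h6 : κ * L * l ≤ H := by
        rw [hH]
        have : 0 ≤ L * l := by positivity
        nlinarith
      have h7 := abs_le.1 (hm.trans h6)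
      have h8 : |(m : ℝ) - ⌊y⌋| < (K : ℝ) + 2 := by
        rw [abs_lt]
        constructor
        · linarith
        · linarith
      have h9 : |m - ⌊y⌋| < (K : ℤ) + 2 := by exact_mod_cast h8
      omega
    obtain ⟨q, hq, hq1, hq2⟩ := hno m hm2 f hf
    exact not_prime_natAbs hq hq1 hq2
  · intro w ν hwν
    have hx4 : (4 : ℤ) ≤ ⌊y⌋ := by
      rw [Int.le_floor]
      push_cast
      linarith
    obtain ⟨x, hx⟩ : ∃ x : ℕ, (x : ℤ) = ⌊y⌋ := ⟨⌊y⌋.toNat, Int.toNat_of_nonneg (by omega)⟩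
    have hxy : (x : ℝ) = (⌊y⌋ : ℝ) := by exact_mod_cast congrArg (fun z : ℤ => (z : ℝ)) hx
    have hlogN : Real.log ((x + K : ℕ) : ℝ) ≤ ((D₁ : ℝ) + 1) * L := by
      have h6 : ((x + K : ℕ) : ℝ) ≤ Z ^ (D₁ + 1) := by
        push_cast
        have h7 : (x : ℝ) + K ≤ 2 * y := by linarith
        calc (x : ℝ) + K ≤ 2 * y := h7
          _ ≤ Z * Z ^ D₁ := mul_le_mul (by linarith) hyD (by linarith) hZ0.le
          _ = Z ^ (D₁ + 1) := by ring
      have h8 : (0 : ℝ) < ((x + K : ℕ) : ℝ) := by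
        have : 0 < x + K := by omega
        exact_mod_cast this
      have h9 := Real.log_le_log h8 h6
      rw [Real.log_pow] at h9
      push_cast at h9 ⊢
      exact h9
    obtain ⟨N, hN1, hN2⟩ := err_at 𝓕 w ν hwν x K (by omega) (((D₁ : ℝ) + 1) * L) H (by linarith)
      hK2.le hlogN (by
        intro f hf m hm1 hm2
        obtain ⟨q, hq, hq1, hq2⟩ := hno (m : ℤ) (by
          rw [← hx, abs_le]
          omega) f hf
        exact Pool.Agent.N201.SP.not_prime_of_dvd hq hq1 hq2)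
    refine ⟨N, ?_, ?_⟩
    · have h6 : |(N : ℝ) - x| ≤ H + 1 := by
        rcases hN1 with rfl | rfl
        · rw [Nat.cast_sub (by omega)]
          simp only [Nat.cast_one]
          rw [abs_le]
          constructor <;> linarith
        · push_cast
          rw [abs_le]
          constructor <;> linarith
      have h7 := abs_le.1 h6
      rw [abs_le]
      constructor <;> linarith
    · refine le_trans (le_of_eq ?_) hN2
      rw [hκ, hH]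
      have hLne : L ≠ 0 := by linarith
      field_simp

end Pool.Agent.N542.PU
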