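import Pool.Agent.N542.PC.Shift

set_option autoImplicit false
set_option maxHeartbeats 4000000

/-! Exponential sums over primes for several smooth functions at several shifts (as in
`Pool.Agent.N542.PT.Main`). -/

namespace Pool.Agent.N542.PU

open Finset Filter Topology
open Pool.Agent.H469R2.NK (e norm_e e_add)
open Pool.Agent.N542.PP (SV)
open Pool.Agent.N542.PC (exp_shifts exp_primes' sv_shift)

/-- exponential sums over primes for the functions `α_{φ k} f_{φ k}(t + σ k)`, incongruent indices -/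
theorem exp_coords1 {r n : ℕ} (hr : 1 ≤ r) (c u : Fin r → ℝ) (F : Fin r → ℕ → ℝ → ℝ)
    (hSV : ∀ j, SV (c j) (F j)) (hcn : ∀ j, ∀ n : ℕ, c j ≠ n)
    (φ : Fin n → Fin r) (σ : Fin n → ℤ) (hφσ : ∀ k l, φ k = φ l → σ k = σ l → k = l)
    (hcard : ∀ j, ((univ.filter (fun k => φ k = j)).card : ℝ) < c j + u j + 1)
    (hinc : ∀ i j, i ≠ j → ∀ n : ℤ, (c i + u i) - (c j + u j) ≠ n)
    (D : ℕ) (ε : ℝ) (hε : 0 < ε) (hε1 : ε ≤ 1 / 2) :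
    ∃ ρ δ : ℝ, 0 < ρ ∧ ρ ≤ 1 / 8 ∧ 0 < δ ∧ ∀ᶠ Z : ℝ in atTop, ∀ (d b : ℕ) (α : Fin r → ℝ)
      (h : Fin n → ℤ) (q : ℕ) (P : Polynomial ℝ), 0 < d →
      (∀ j, Z ^ (u j - δ) ≤ |α j| ∧ |α j| ≤ Z ^ (u j + δ)) → 1 ≤ q → (q : ℝ) ≤ Z ^ δ →
      h ≠ 0 → (∀ k, |(h k : ℝ)| ≤ Z ^ δ) → P.natDegree ≤ D → ⌊Z⌋₊ < ⌊(1 + ε) * Z⌋₊ →
      ‖∑ p ∈ (Ioc ⌊Z⌋₊ ⌊(1 + ε) * Z⌋₊).filter (fun p => p.Prime ∧ p ≡ b [MOD d]),
        e (∑ k, (h k : ℝ) * α (φ k) / q * F (φ k) 0 ((p : ℝ) + σ k) + P.eval (p : ℝ))‖ ≤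
        2 * Z ^ (1 - ρ) := by
  classical
  obtain ⟨S, hSdef⟩ : ∃ S : Fin r → Finset ℤ,
    S = fun j => (univ.filter (fun k => φ k = j)).image σ := ⟨_, rfl⟩
  have hSmem : ∀ j s, s ∈ S j ↔ ∃ k, φ k = j ∧ σ k = s := by
    intro j s
    rw [hSdef]
    simp only [mem_image, mem_filter, mem_univ, true_and]
  have hS : ∀ j, ((S j).card : ℝ) < c j + u j + 1 := by
    intro j
    refine lt_of_le_of_lt ?_ (hcard j)
    rw [hSdef]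
    exact_mod_cast card_image_le
  obtain ⟨ρ, δ, hρ0, hρ1, hδ, hexp⟩ := exp_shifts hr c u F hSV hcn hinc S hS D ε hε hε1
  refine ⟨ρ, δ, hρ0, hρ1, hδ, ?_⟩
  filter_upwards [hexp] with Z hex
  intro d b α h q P hd hα hq hqZ hh hhZ hPD hm01
  set h' : Fin r → ℤ → ℤ := fun j s => ∑ k ∈ univ.filter (fun k => φ k = j ∧ σ k = s), h k
    with hh'
  have h'eq : ∀ k, h' (φ k) (σ k) = h k := by
    intro k
    rw [hh']
    simp only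
    have : univ.filter (fun l => φ l = φ k ∧ σ l = σ k) = {k} := by
      ext l
      rw [mem_filter, mem_singleton]
      constructor
      · rintro ⟨-, h1, h2⟩
        exact hφσ l k h1 h2
      · rintro rfl
        exact ⟨mem_univ _, rfl, rfl⟩
    rw [this, sum_singleton]
  have h1 := hex d b α h' q P hd hα hq hqZ (by
      obtain ⟨k, hk⟩ : ∃ k, h k ≠ 0 := by
        by_contra hcon
        push Not at hcon
        exact hh (funext hcon)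
      refine ⟨φ k, σ k, (hSmem _ _).2 ⟨k, rfl, rfl⟩, ?_⟩
      rw [h'eq]
      exact hk) (by
      intro j s hs
      obtain ⟨k, rfl, rfl⟩ := (hSmem _ _).1 hs
      rw [h'eq]
      exact hhZ _) hPD hm01
  refine le_trans (le_of_eq ?_) h1
  congr 1
  refine sum_congr rfl fun p _ => ?_
  congr 2
  rw [← Finset.sum_fiberwise (s := univ) (g := φ)]
  refine sum_congr rfl fun j _ => ?_
  rw [← Finset.sum_fiberwise_of_maps_to (s := univ.filter (fun k => φ k = j)) (t := S j) (g := σ)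
    (fun k hk => (hSmem _ _).2 ⟨k, (mem_filter.1 hk).2, rfl⟩)]
  refine sum_congr rfl fun s _ => ?_
  rw [hh']
  simp only
  rw [filter_filter]
  push_cast
  rw [sum_mul, sum_div, sum_mul]
  refine sum_congr rfl fun k hk => ?_
  rw [mem_filter] at hk
  rw [hk.2.1, hk.2.2]

/-- exponential sums over primes for the functions `α_{φ k} f_{φ k}(t + σ k)`, `φ` injective -/
theorem exp_coords2 {r n : ℕ} (hn : 1 ≤ n) (c u : Fin r → ℝ) (F : Fin r → ℕ → ℝ → ℝ)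
    (hSV : ∀ j, SV (c j) (F j)) (hcn : ∀ j, ∀ n : ℕ, c j ≠ n)
    (φ : Fin n → Fin r) (σ : Fin n → ℤ) (hφ : Function.Injective φ)
    (hcard : ∀ j, ((univ.filter (fun k => φ k = j)).card : ℝ) < c j + u j + 1)
    (hinj : ∀ i j, i ≠ j → c i + u i ≠ c j + u j)
    (D : ℕ) (ε : ℝ) (hε : 0 < ε) (hε1 : ε ≤ 1 / 2) :
    ∃ ρ δ : ℝ, 0 < ρ ∧ ρ ≤ 1 / 8 ∧ 0 < δ ∧ ∀ᶠ Z : ℝ in atTop, ∀ (d b : ℕ) (α : Fin r → ℝ)
      (h : Fin n → ℤ) (q : ℕ) (P : Polynomial ℝ), 0 < d →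
      (∀ j, Z ^ (u j - δ) ≤ |α j| ∧ |α j| ≤ Z ^ (u j + δ)) → 1 ≤ q → (q : ℝ) ≤ Z ^ δ →
      h ≠ 0 → (∀ k, |(h k : ℝ)| ≤ Z ^ δ) → P.natDegree ≤ D → ⌊Z⌋₊ < ⌊(1 + ε) * Z⌋₊ →
      ‖∑ p ∈ (Ioc ⌊Z⌋₊ ⌊(1 + ε) * Z⌋₊).filter (fun p => p.Prime ∧ p ≡ b [MOD d]),
        e (∑ k, (h k : ℝ) * α (φ k) / q * F (φ k) 0 ((p : ℝ) + σ k) + P.eval (p : ℝ))‖ ≤
        2 * Z ^ (1 - ρ) := by
  classical
  obtain ⟨ρ, δ, hρ0, hρ1, hδ, hexp⟩ := exp_primes' hn (fun k => c (φ k)) (fun k => u (φ k))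
    (fun k j t => F (φ k) j (t + σ k)) (fun k => sv_shift (hSV (φ k)) (σ k))
    (fun k => hcn (φ k)) (by
      intro k l hkl
      by_contra hne
      exact hinj (φ k) (φ l) (fun h => hne (hφ h)) hkl) D ε hε hε1
  refine ⟨ρ, δ, hρ0, hρ1, hδ, ?_⟩
  filter_upwards [hexp] with Z hex
  intro d b α h q P hd hα hq hqZ hh hhZ hPD hm01
  exact hex d b (fun k => α (φ k)) h q P hd (fun k => hα (φ k)) hq hqZ (by
      obtain ⟨k, hk⟩ : ∃ k, h k ≠ 0 := by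
        by_contra hcon
        push Not at hcon
        exact hh (funext hcon)
      refine ⟨k, hk, ?_⟩
      have h1 : (1 : ℝ) ≤ ((univ.filter (fun l => φ l = φ k)).card : ℝ) := by
        have : 0 < (univ.filter (fun l => φ l = φ k)).card :=
          Finset.card_pos.2 ⟨k, mem_filter.2 ⟨mem_univ _, rfl⟩⟩
        exact_mod_cast this
      have h2 := hcard (φ k)
      linarith) hhZ hPD hm01

/-- Either the indices are incongruent modulo one, or they are distinct and every function is used at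
most once. -/
def Spread {r n : ℕ} (v : Fin r → ℝ) (φ : Fin n → Fin r) : Prop :=
  (∀ i j, i ≠ j → ∀ m : ℤ, v i - v j ≠ m) ∨
    (Function.Injective φ ∧ ∀ i j, i ≠ j → v i ≠ v j)

theorem exp_coords {r n : ℕ} (hn : 1 ≤ n) (c u : Fin r → ℝ) (F : Fin r → ℕ → ℝ → ℝ)
    (hSV : ∀ j, SV (c j) (F j)) (hcn : ∀ j, ∀ n : ℕ, c j ≠ n)
    (φ : Fin n → Fin r) (σ : Fin n → ℤ) (hφσ : ∀ k l, φ k = φ l → σ k = σ l → k = l)
    (hcard : ∀ j, ((univ.filter (fun k => φ k = j)).card : ℝ) < c j + u j + 1)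
    (hsp : Spread (fun j => c j + u j) φ)
    (D : ℕ) (ε : ℝ) (hε : 0 < ε) (hε1 : ε ≤ 1 / 2) :
    ∃ ρ δ : ℝ, 0 < ρ ∧ ρ ≤ 1 / 8 ∧ 0 < δ ∧ ∀ᶠ Z : ℝ in atTop, ∀ (d b : ℕ) (α : Fin r → ℝ)
      (h : Fin n → ℤ) (q : ℕ) (P : Polynomial ℝ), 0 < d →
      (∀ j, Z ^ (u j - δ) ≤ |α j| ∧ |α j| ≤ Z ^ (u j + δ)) → 1 ≤ q → (q : ℝ) ≤ Z ^ δ →
      h ≠ 0 → (∀ k, |(h k : ℝ)| ≤ Z ^ δ) → P.natDegree ≤ D → ⌊Z⌋₊ < ⌊(1 + ε) * Z⌋₊ →
      ‖∑ p ∈ (Ioc ⌊Z⌋₊ ⌊(1 + ε) * Z⌋₊).filter (fun p => p.Prime ∧ p ≡ b [MOD d]),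
        e (∑ k, (h k : ℝ) * α (φ k) / q * F (φ k) 0 ((p : ℝ) + σ k) + P.eval (p : ℝ))‖ ≤
        2 * Z ^ (1 - ρ) := by
  have hr : 1 ≤ r := by
    have := (φ ⟨0, hn⟩).isLt
    omega
  rcases hsp with hsp | ⟨hφ, hinj⟩
  · exact exp_coords1 hr c u F hSV hcn φ σ hφσ hcard hsp D ε hε hε1
  · exact exp_coords2 hn c u F hSV hcn φ σ hφ hcard hinj D ε hε hε1

end Pool.Agent.N542.PU
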