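import Pool.Agent.N542.PU.Real2
import Pool.Agent.N542.PU.Exp
import Pool.Agent.TH915.PW.APCount

set_option autoImplicit false
set_option maxHeartbeats 4000000

/-! Values of several polynomials near the integral parts of smooth functions of a prime number. -/

namespace Pool.Agent.N542.PU

open Finset Filter Topology Polynomial
open Pool.Agent.H469R2.NK (e norm_e e_add)
open Pool.Agent.N542.PP (SV)
open Pool.Agent.TH915.PW (card_primes)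
open Pool.Agent.W147.PS (ev_pow)

theorem transfer {r n : ℕ} (hn : 1 ≤ n) (c u : Fin r → ℝ) (F : Fin r → ℕ → ℝ → ℝ)
    (hSV : ∀ j, SV (c j) (F j)) (hcn : ∀ j, ∀ n : ℕ, c j ≠ n)
    (φ : Fin n → Fin r) (σ : Fin n → ℤ) (hφσ : ∀ k l, φ k = φ l → σ k = σ l → k = l)
    (hcard : ∀ j, ((univ.filter (fun k => φ k = j)).card : ℝ) < c j + u j + 1)
    (hsp : Spread (fun j => c j + u j) φ)
    (𝓕 : Finset ℤ[X]) (h𝓕 : ∀ f ∈ 𝓕, 0 < f.natDegree) (B : ℕ)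
    (D d b : ℕ) (hd : 0 < d) (hb : b.Coprime d) (ε : ℝ) (hε : 0 < ε) (hε1 : ε ≤ 1 / 2) :
    ∃ κ δ : ℝ, 0 < κ ∧ 0 < δ ∧ ∀ᶠ Z : ℝ in atTop, ∀ S : Finset ℤ,
      (∀ s ∈ S, |(s : ℝ)| ≤ (Real.log Z) ^ B) →
      (S.card : ℝ) ≤ κ * Real.log Z * Real.log (Real.log Z) →
      ∀ (α : Fin r → ℝ) (P : Fin n → Polynomial ℝ),
      (∀ j, Z ^ (u j - δ) ≤ |α j| ∧ |α j| ≤ Z ^ (u j + δ)) → (∀ k, (P k).natDegree ≤ D) →
      ∃ G : Finset ℕ, Z ^ (1 - ε) ≤ (G.card : ℝ) ∧ ∀ p ∈ G, p.Prime ∧ p ≡ b [MOD d] ∧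
        Z < p ∧ (p : ℝ) ≤ (1 + ε) * Z ∧
        GoodP 𝓕 S (Z ^ ε)
          (fun k => ⌊α (φ k) * F (φ k) 0 ((p : ℝ) + σ k) + (P k).eval (p : ℝ)⌋) := by
  classical
  obtain ⟨ρ, δ, hρ0, hρ1, hδ, hexp⟩ := exp_coords hn c u F hSV hcn φ σ hφσ hcard hsp D ε hε hε1
  set η : ℝ := min (min (ρ / 8) δ) (min (ε / 8) (1 / 8)) with hη
  have hη0 : 0 < η := lt_min (lt_min (by positivity) hδ) (lt_min (by positivity) (by norm_num))
  have hηρ : η ≤ ρ / 8 := (min_le_left _ _).trans (min_le_left _ _)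
  have hηδ : η ≤ δ := (min_le_left _ _).trans (min_le_right _ _)
  have hηε : η ≤ ε / 8 := (min_le_right _ _).trans (min_le_left _ _)
  set τ : ℝ := min (ρ / 8) (ε / 8) with hτ
  have hτ0 : 0 < τ := lt_min (by positivity) (by positivity)
  have hτ1 : τ ≤ ρ / 8 := min_le_left _ _
  have hτ2 : τ ≤ ε / 8 := min_le_right _ _
  obtain ⟨κ, hκ, hmany⟩ := many n hn 𝓕 h𝓕 B η hη0 (by linarith)
  refine ⟨κ, δ, hκ, hδ, ?_⟩
  filter_upwards [hexp, hmany, card_primes d hd b hb ε τ hε (by linarith) hτ0,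
    eventually_ge_atTop (4 : ℝ), ev_pow (1 - ρ) (1 - τ - η) 2 (by linarith),
    ev_pow (1 - ε) (1 - τ - η) 1 (by linarith)]
    with Z hex hmany hcard hZ4 hp1 hp3
  intro S hS hSc α P hα hPD
  have hZ0 : 0 < Z := by linarith
  have hZ1 : 1 ≤ Z := by linarith
  set Q : Finset ℕ := (Ioc ⌊Z⌋₊ ⌊(1 + ε) * Z⌋₊).filter (fun p => p.Prime ∧ p ≡ b [MOD d]) with hQ
  have hQpos : (0 : ℝ) < Q.card := lt_of_lt_of_le (by positivity) hcard
  have hQne : Q.Nonempty := by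
    rw [← Finset.card_pos]
    exact_mod_cast hQpos
  have hQmem : ∀ p ∈ Q, p.Prime ∧ p ≡ b [MOD d] ∧ Z < p ∧ (p : ℝ) ≤ (1 + ε) * Z := by
    intro p hp
    rw [hQ, Finset.mem_filter, Finset.mem_Ioc] at hp
    refine ⟨hp.2.1, hp.2.2, ?_, ?_⟩
    · exact (Nat.floor_lt hZ0.le).mp hp.1.1
    · have h1 : (p : ℝ) ≤ (⌊(1 + ε) * Z⌋₊ : ℕ) := by exact_mod_cast hp.1.2
      exact h1.trans (Nat.floor_le (by positivity))
  have hm01 : ⌊Z⌋₊ < ⌊(1 + ε) * Z⌋₊ := by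
    obtain ⟨p, hp⟩ := hQne
    rw [hQ, Finset.mem_filter, Finset.mem_Ioc] at hp
    omega
  have hQZ : Z ^ (1 - τ - η) ≤ (Q.card : ℝ) * Z ^ (-η) := by
    calc Z ^ (1 - τ - η) = Z ^ (1 - τ) * Z ^ (-η) := by
          rw [← Real.rpow_add hZ0]
          congr 1
      _ ≤ _ := by gcongr
  have hmono : Z ^ η ≤ Z ^ δ := Real.rpow_le_rpow_of_exponent_le hZ1 hηδ
  obtain ⟨G, hGQ, hG1, hG2⟩ := hmany S hS hSc ℕ Q
    (fun p k => α (φ k) * F (φ k) 0 ((p : ℝ) + σ k) + (P k).eval (p : ℝ)) hQne (by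
      intro q hq hqZ h hh hhZ
      have h1 := hex d b α h q (∑ k, Polynomial.C ((h k : ℝ) / q) * P k)
        hd hα hq (hqZ.trans hmono) hh (fun k => (hhZ k).trans hmono)
        (Polynomial.natDegree_sum_le_of_forall_le _ _ (fun k _ =>
          (Polynomial.natDegree_C_mul_le _ _).trans (hPD _))) hm01
      refine le_trans (le_of_eq ?_) (h1.trans (hp1.trans hQZ))
      congr 1
      refine sum_congr rfl fun p _ => ?_
      congr 1
      have e1 : ∑ k, (h k : ℝ) * ((α (φ k) * F (φ k) 0 ((p : ℝ) + σ k) + (P k).eval (p : ℝ)) / q) =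
          ∑ k, (h k : ℝ) * α (φ k) / q * F (φ k) 0 ((p : ℝ) + σ k) +
          ∑ k, (h k : ℝ) / q * (P k).eval (p : ℝ) := by
        rw [← sum_add_distrib]
        refine sum_congr rfl fun k _ => ?_
        ring
      rw [e1, Polynomial.eval_finsetSum]
      congr 1
      refine sum_congr rfl fun k _ => ?_
      rw [Polynomial.eval_mul, Polynomial.eval_C])
  refine ⟨G, ?_, ?_⟩
  · linarith
  · intro p hp
    obtain ⟨h1, h2, h3, h4⟩ := hQmem p (hGQ hp)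
    refine ⟨h1, h2, h3, h4, ?_⟩
    intro j f hf s hs
    obtain ⟨q, hq, hq1, hq2⟩ := hG2 p hp j f hf s hs
    exact ⟨q, hq, hq1.trans (Real.rpow_le_rpow_of_exponent_le hZ1 (by linarith)), hq2⟩

end Pool.Agent.N542.PU
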