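import Pool.Agent.N201.SP.Base
import Pool.Agent.N542.PU.Cover2
import Pool.Agent.N542.PU.Count

set_option autoImplicit false
set_option linter.unusedVariables false

/-! # Prime factors of the values of several polynomials near the coordinates of the vectors of a family

`Pool.Agent.N201.SP.prime_factors` (helper201) for well distributed families of integer vectors. -/

namespace Pool.Agent.N542.PU

open Polynomial Finset Filter
open Pool.Agent.H474R2.PG (rho PR Sg PS WW PR_prime PR_le PR_not_dvd WW_pos WW_le eval_dvd_congr rho_le rough_lower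
  prod_le_exp)
open Pool.Agent.N201.SP

/-- The family `w a`, `a ∈ s`, of integer vectors is well distributed modulo the integers `q ≤ Z`. -/
def WellDist {d : ℕ} (Z : ℝ) {α : Type} (s : Finset α) (w : α → Fin d → ℤ) : Prop :=
  ∀ q : ℕ, 1 ≤ q → (q : ℝ) ≤ Z → ∀ ρ : Fin d → ℤ,
    |((s.filter (fun i => ∀ j, (q : ℤ) ∣ w i j - ρ j)).card : ℝ) - s.card / (q : ℝ) ^ d| ≤
      s.card * Z ^ (-((d : ℝ) + 1))

/-- **Several polynomials near the coordinates of integer vectors.** -/
theorem prime_factors_vec (n : ℕ) (F : Finset ℤ[X])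
    (hF : ∀ f ∈ F, Irreducible f ∧ 0 < f.natDegree ∧ 0 < f.leadingCoeff) (b : ℕ) :
    ∃ c : ℝ, 0 < c ∧ ∃ Y₀ : ℝ, ∀ Y : ℝ, Y₀ ≤ Y → ∀ S : Finset ℤ,
      (∀ s ∈ S, |(s : ℝ)| ≤ (Real.log Y) ^ b) →
      (S.card : ℝ) ≤ c * Real.log Y * Real.log (Real.log Y) →
      ∀ (α : Type) (s₀ : Finset α) (w₀ : α → Fin n → ℤ), s₀.Nonempty → WellDist Y s₀ w₀ →
      ∃ a ∈ s₀, ∀ j, ∀ f ∈ F, ∀ s ∈ S,
        ∃ p : ℕ, p.Prime ∧ (p : ℝ) ≤ Y ^ (1 / 10 : ℝ) ∧ (p : ℤ) ∣ f.eval (w₀ a j + s) := by
  classical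
  rcases Nat.eq_zero_or_pos n with hn0 | hnpos
  · refine ⟨1, one_pos, 4, fun Y hY S _ _ α s₀ w₀ hs₀ _ => ?_⟩
    obtain ⟨a, ha⟩ := hs₀
    refine ⟨a, ha, fun j => ?_⟩
    have := j.isLt
    omega
  have hnN : Nonempty (Fin n) := ⟨⟨0, hnpos⟩⟩
  rcases F.eq_empty_or_nonempty with hFe | hFne
  · refine ⟨1, one_pos, 4, fun Y hY S _ _ α s₀ w₀ hs₀ _ => ?_⟩
    obtain ⟨a, ha⟩ := hs₀
    refine ⟨a, ha, fun j f hf => ?_⟩
    rw [hFe] at hf
    exact absurd hf (Finset.notMem_empty f)
  have : Nonempty (↥F) := hFne.to_subtype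
  -- the constants of the polynomials
  set r : (↥F) → ℕ → ℕ := fun j => rho (j : ℤ[X]) with hr
  choose Bj hBj using fun j : (↥F) => rho_le (j : ℤ[X]) (hF j j.2).1.ne_zero
  choose Cj hCj0 hCj using fun j : (↥F) => mertens_two (j : ℤ[X]) (hF j j.2).1 (hF j j.2).2.1
  set d : ℕ := ∑ j : (↥F), (j : ℤ[X]).natDegree with hd
  set B : ℕ := ∑ j : (↥F), Bj j with hB
  set C : ℝ := ∑ j : (↥F), Cj j with hC
  have hdj : ∀ j : (↥F), (j : ℤ[X]).natDegree ≤ d := fun j =>
    Finset.single_le_sum (f := fun j : (↥F) => (j : ℤ[X]).natDegree) (fun _ _ => Nat.zero_le _)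
      (Finset.mem_univ j)
  have hBj' : ∀ j : (↥F), Bj j ≤ B := fun j =>
    Finset.single_le_sum (f := fun j : (↥F) => Bj j) (fun _ _ => Nat.zero_le _)
      (Finset.mem_univ j)
  have hCj' : ∀ j : (↥F), Cj j ≤ C := fun j =>
    Finset.single_le_sum (f := fun j : (↥F) => Cj j) (fun j _ => hCj0 j)
      (Finset.mem_univ j)
  have hd1 : 1 ≤ d := by
    obtain ⟨j⟩ := this
    exact le_trans (hF j j.2).2.1 (hdj j)
  have hrd : ∀ j : (↥F), ∀ p : ℕ, p.Prime → B < p → r j p ≤ d := fun j p hp hBp =>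
    (hBj j p hp (lt_of_le_of_lt (hBj' j) hBp)).trans (hdj j)
  have hMer : ∀ j : (↥F), ∀ w : ℝ, 3 ≤ w → |Sg (r j) w - Real.log (Real.log w)| ≤ C :=
    fun j w hw => (hCj j w hw).trans (hCj' j)
  have hM : ∀ j : (↥F), ∀ w : ℝ, 3 ≤ w → Real.log (Real.log w) - C ≤ Sg (r j) w := by
    intro j w hw
    have := (abs_le.1 (hMer j w hw)).1
    linarith
  choose cj hcj Zj hZj hRLj using fun j : (↥F) => rough_lower (r j) d B (hrd j) C (hM j)
  obtain ⟨jm, -, hjm⟩ := Finset.exists_min_image (Finset.univ : Finset (↥F)) cj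
    Finset.univ_nonempty
  obtain ⟨jM, -, hjM⟩ := Finset.exists_max_image (Finset.univ : Finset (↥F)) Zj
    Finset.univ_nonempty
  have hRL : ∀ j : (↥F), ∀ y z x : ℝ, Zj jM ≤ y → y ≤ x → x ≤ z →
      cj jm * Real.log x * Real.exp (-(Sg (r j) y)) - 1 ≤
        ∑ s ∈ ((PS (r j) y z).powerset.filter
            (fun s : Finset ℕ => s.Nonempty ∧ ∏ p ∈ s, (p : ℝ) ≤ x)),
          ∏ p ∈ s, (r j p : ℝ) / (p : ℝ) := by
    intro j y z x hy hyx hxz
    refine le_trans ?_ (hRLj j y z x ((hjM j (Finset.mem_univ j)).trans hy) hyx hxz)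
    have h1 : (3 : ℝ) ≤ x := ((hZj jM).trans hy).trans hyx
    have h2 : 0 ≤ Real.log x := Real.log_nonneg (by linarith)
    have h3 : cj jm ≤ cj j := hjm j (Finset.mem_univ j)
    have h4 : cj jm * Real.log x ≤ cj j * Real.log x := mul_le_mul_of_nonneg_right h3 h2
    have h5 := mul_le_mul_of_nonneg_right h4 (Real.exp_pos (-(Sg (r j) y))).le
    linarith
  -- collisions
  choose A₀ hA₀ using fun q : (↥F) × (↥F) => no_coll (q.1 : ℤ[X]) (q.2 : ℤ[X])
    (hF q.1 q.1.2).1 (hF q.2 q.2.2).1 (hF q.1 q.1.2).2.1 (hF q.2 q.2.2).2.1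
    (hF q.1 q.1.2).2.2 (hF q.2 q.2.2).2.2 (b + 1)
  set A : ℕ := 4 + ∑ q : (↥F) × (↥F), A₀ q with hA
  have hAq : ∀ q : (↥F) × (↥F), A₀ q ≤ A := fun q => by
    have := Finset.single_le_sum (f := A₀) (fun _ _ => Nat.zero_le _) (Finset.mem_univ q)
    omega
  have hA2 : 2 ≤ A := by omega
  have hA4 : 4 ≤ A := by omega
  choose T₀ hT₀ using fun q => hA₀ q A (hAq q)
  obtain ⟨qM, -, hqM⟩ := Finset.exists_max_image (Finset.univ : Finset ((↥F) × (↥F))) T₀
    Finset.univ_nonempty
  obtain ⟨c, hc, X₀, hcov⟩ := covering_gen r d B hd1 hrd C hM (cj jm / 2) (Zj jM)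
    (half_pos (hcj jm)) (hZj jM) (by
      have e : 2 * (cj jm / 2) = cj jm := by ring
      rw [e]
      exact hRL) A hA2
  have hAR : (0 : ℝ) < A := by exact_mod_cast (by omega : 0 < A)
  have hFc : (0 : ℝ) < F.card := by exact_mod_cast hFne.card_pos
  have hnR : (0 : ℝ) < n := by exact_mod_cast hnpos
  set c' : ℝ := c * Real.exp (-(2 * C)) / (2 * A * F.card) / n with hc'
  have hc'0 : 0 < c' := by positivity
  refine ⟨c', hc'0, ?_⟩
  -- largeness
  have t1 : Tendsto (fun Y : ℝ => Real.log Y) atTop atTop := Real.tendsto_log_atTop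
  have t2 : Tendsto (fun Y : ℝ => Real.log (Real.log Y)) atTop atTop := t1.comp t1
  obtain ⟨Y₀, hY₀⟩ := eventually_atTop.mp ((eventually_ge_atTop X₀).and
    ((t1.eventually_ge_atTop (max (T₀ qM) (max (B : ℝ) (max 10000 (2 * (d * c)))))).and
      ((t2.eventually_ge_atTop (10 * Real.log d)).and (eventually_ge_atTop (1:ℝ)))))
  refine ⟨Y₀, fun Y hY S hS hScard α s₀ w₀ hs₀ hwd => ?_⟩
  obtain ⟨a1, a2, a3, a4⟩ := hY₀ Y hY
  have hY0 : 0 < Y := by linarith
  set L : ℝ := Real.log Y with hL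
  set l : ℝ := Real.log L with hll
  have hLT : T₀ qM ≤ L := (le_max_left _ _).trans a2
  have hLB : (B : ℝ) ≤ L := ((le_max_left _ _).trans (le_max_right _ _)).trans a2
  have hL4 : 10000 ≤ L :=
    (((le_max_left _ _).trans (le_max_right _ _)).trans (le_max_right _ _)).trans a2
  have hLdc : 2 * (d * c) ≤ L :=
    (((le_max_right _ _).trans (le_max_right _ _)).trans (le_max_right _ _)).trans a2
  have hLpos : 0 < L := by linarith
  have hYexp : Y = Real.exp L := (Real.exp_log hY0).symm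
  have hYr : ∀ s : ℝ, Y ^ s = Real.exp (s * L) := by
    intro s
    rw [hYexp, ← Real.exp_mul, mul_comm]
  have hl0 : 0 < l := Real.log_pos (by linarith)
  -- small primes
  set w : ℝ := L / 100 with hw
  have hw0 : 0 ≤ w := by positivity
  have hw3 : 3 ≤ w := by rw [hw]; linarith
  have hlw : l / 2 ≤ Real.log w := by
    have h1 : Real.log w = l - Real.log 100 := by
      rw [hw, Real.log_div (by linarith) (by norm_num)]
    have h2 : Real.log 100 = Real.log 10000 / 2 := by
      have : (10000 : ℝ) = 100 ^ 2 := by norm_num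
      rw [this, Real.log_pow]
      push_cast
      ring
    have h3 : Real.log 10000 ≤ l := Real.log_le_log (by norm_num) hL4
    rw [h1, h2]
    linarith
  have hlw0 : 0 < Real.log w := by linarith
  set PPs : Finset ℤ[X] := (F ×ˢ S).image (fun q => q.1.comp (X + Polynomial.C q.2)) with hPPd
  have hPPcard : (PPs.card : ℝ) ≤ F.card * S.card := by
    have h1 : PPs.card ≤ (F ×ˢ S).card := Finset.card_image_le
    rw [Finset.card_product] at h1
    exact_mod_cast h1
  obtain ⟨rr, hrr⟩ := greedy (PR w) (fun p hp => PR_prime hp) PPs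
  set Rs : Finset ℤ[X] := PPs.filter (fun f => ∀ p ∈ PR w, ¬ (p : ℤ) ∣ f.eval rr) with hRs
  have hrep : ∀ P : (↥Rs), ∃ q : (↥F) × ℤ, q.2 ∈ S ∧
      (q.1 : ℤ[X]).comp (X + Polynomial.C q.2) = (P : ℤ[X]) := by
    intro P
    have h1 := (Finset.mem_filter.1 P.2).1
    rw [hPPd, Finset.mem_image] at h1
    obtain ⟨q, hq, hq2⟩ := h1
    rw [Finset.mem_product] at hq
    exact ⟨(⟨q.1, hq.1⟩, q.2), hq.2, hq2⟩
  choose rep hrep1 hrep2 using hrep
  set W : ℕ := WW w with hW
  have hW1 : 1 ≤ W := WW_pos w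
  have hWle : (W : ℝ) ≤ Real.exp (L / 50) := by
    rw [hW, hw]
    exact WW_le hLpos.le
  have hWR : (0:ℝ) < W := by exact_mod_cast hW1
  -- survivors
  have hcard : ∀ k : (↥Rs), (n : ℝ) * (Rs.card : ℝ) ≤
      c * L * l * Real.exp (-(Sg (r (rep k).1) (L ^ A))) := by
    intro k
    have h1 : (Rs.card : ℝ) ≤ F.card * S.card * (Real.exp C * (2 / l)) := by
      refine hrr.trans ?_
      have h2 : ∀ f ∈ PPs, ∏ p ∈ PR w, (1 - (rho f p : ℝ) / (p : ℝ)) ≤ Real.exp C * (2 / l) := by
        intro f hf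
        rw [hPPd, Finset.mem_image] at hf
        obtain ⟨q, hq, rfl⟩ := hf
        rw [Finset.mem_product] at hq
        refine (prod_le_exp _ w).trans ?_
        have h3 : Sg (rho (q.1.comp (X + Polynomial.C q.2))) w = Sg (r ⟨q.1, hq.1⟩) w := by
          unfold Sg
          refine Finset.sum_congr rfl fun p hp => ?_
          rw [rho_comp q.1 q.2 (PR_prime hp)]
        rw [h3]
        have h4 := hM ⟨q.1, hq.1⟩ w hw3
        have h5 : Real.exp (-(Sg (r ⟨q.1, hq.1⟩) w)) ≤ Real.exp (C - Real.log (Real.log w)) :=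
          Real.exp_le_exp.mpr (by linarith)
        refine h5.trans ?_
        rw [Real.exp_sub, Real.exp_log hlw0, div_eq_mul_one_div]
        apply mul_le_mul_of_nonneg_left _ (Real.exp_pos _).le
        rw [div_le_div_iff₀ hlw0 hl0]
        linarith
      refine (Finset.sum_le_sum h2).trans ?_
      rw [Finset.sum_const, nsmul_eq_mul]
      exact mul_le_mul_of_nonneg_right hPPcard (by positivity)
    have h6 : Real.exp (-C) / (A * l) ≤ Real.exp (-(Sg (r (rep k).1) (L ^ A))) := by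
      have hLA3 : 3 ≤ L ^ A := by
        have : L ≤ L ^ A := le_self_pow₀ (by linarith) (by omega)
        linarith
      have h7 := (abs_le.1 (hMer (rep k).1 (L ^ A) hLA3)).2
      rw [Real.log_pow] at h7
      have h8 : Real.exp (-C) / (A * l) = Real.exp (-C - Real.log (A * l)) := by
        rw [Real.exp_sub, Real.exp_log (by positivity)]
      rw [h8]
      apply Real.exp_le_exp.mpr
      linarith
    have h9 : (S.card : ℝ) ≤ c' * L * l := hScard
    calc (n : ℝ) * (Rs.card : ℝ) ≤ n * (F.card * S.card * (Real.exp C * (2 / l))) :=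
          mul_le_mul_of_nonneg_left h1 hnR.le
      _ ≤ n * (F.card * (c' * L * l) * (Real.exp C * (2 / l))) := by
          apply mul_le_mul_of_nonneg_left _ hnR.le
          apply mul_le_mul_of_nonneg_right _ (by positivity)
          exact mul_le_mul_of_nonneg_left h9 hFc.le
      _ = c * L * l * (Real.exp (-C) / (A * l)) := by
          rw [hc']
          have e1 : Real.exp (-(2 * C)) * Real.exp C = Real.exp (-C) := by
            rw [← Real.exp_add]; congr 1; ring
          rw [← e1]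
          generalize Real.exp (-(2 * C)) = E1
          generalize Real.exp C = E2
          have h1' : (A : ℝ) ≠ 0 := hAR.ne'
          have h2' : (F.card : ℝ) ≠ 0 := hFc.ne'
          have h3' : l ≠ 0 := hl0.ne'
          have h4' : (n : ℝ) ≠ 0 := hnR.ne'
          clear_value l L
          field_simp
      _ ≤ c * L * l * Real.exp (-(Sg (r (rep k).1) (L ^ A))) :=
          mul_le_mul_of_nonneg_left h6 (by positivity)
  -- the set
  set 𝒜 : Finset α := s₀.filter (fun a => ∀ j, (W : ℤ) ∣ w₀ a j - rr) with h𝒜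
  have hs₀c : (0 : ℝ) < s₀.card := by exact_mod_cast hs₀.card_pos
  set N : ℝ := (s₀.card : ℝ) / (W : ℝ) ^ n with hN
  have hWn : (0 : ℝ) < (W : ℝ) ^ n := pow_pos hWR n
  have hN0 : 0 < N := div_pos hs₀c hWn
  have hWnle : (W : ℝ) ^ n ≤ Real.exp (n * (L / 50)) := by
    rw [Real.exp_nat_mul]
    exact pow_le_pow_left₀ hWR.le hWle n
  -- conclusion for a suitable `a`
  have hfin : ∀ a ∈ 𝒜, (∀ j, ∀ P ∈ Rs, ∃ p : ℕ, p.Prime ∧ (p : ℝ) ≤ Y ^ (1 / 10 : ℝ) ∧
      (p : ℤ) ∣ P.eval (w₀ a j)) → ∃ a ∈ s₀, ∀ j, ∀ f ∈ F, ∀ s ∈ S,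
        ∃ p : ℕ, p.Prime ∧ (p : ℝ) ≤ Y ^ (1 / 10 : ℝ) ∧ (p : ℤ) ∣ f.eval (w₀ a j + s) := by
    intro a ha hcovd
    rw [h𝒜, Finset.mem_filter] at ha
    obtain ⟨ha1, ha3⟩ := ha
    refine ⟨a, ha1, ?_⟩
    intro j f hf s hs
    have hPe : (f.comp (X + Polynomial.C s)).eval (w₀ a j) = f.eval (w₀ a j + s) := by
      rw [eval_comp]
      simp
    have hPPm : f.comp (X + Polynomial.C s) ∈ PPs := by
      rw [hPPd, Finset.mem_image]
      exact ⟨(f, s), Finset.mem_product.2 ⟨hf, hs⟩, rfl⟩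
    rw [← hPe]
    by_cases hkR : f.comp (X + Polynomial.C s) ∈ Rs
    · exact hcovd j _ hkR
    · rw [hRs, Finset.mem_filter, not_and] at hkR
      have h1 := hkR hPPm
      push Not at h1
      obtain ⟨p, hp, hpd⟩ := h1
      refine ⟨p, PR_prime hp, ?_, ?_⟩
      · have h2 := PR_le hw0 hp
        have h3 : w ≤ Y ^ (1 / 10 : ℝ) := by
          rw [hYr, hw]
          have := Real.add_one_le_exp (1 / 10 * L)
          linarith
        linarith
      · have h2 : (p : ℤ) ∣ w₀ a j - rr := by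
          refine dvd_trans ?_ (ha3 j)
          have : p ∣ W := by
            rw [hW]
            exact Finset.dvd_prod_of_mem _ hp
          exact_mod_cast this
        exact (eval_dvd_congr _ p _ _ h2).2 hpd
  have hWY : (W : ℝ) ≤ Y := by
    refine hWle.trans ?_
    rw [hYexp]
    exact Real.exp_le_exp.mpr (by linarith)
  have hYn : Y ^ (-((n : ℝ) + 1)) = Real.exp (-(((n : ℝ) + 1) * L)) := by
    rw [hYr]
    congr 1
    ring
  have h𝒜ne : 𝒜.Nonempty := by
    have h1 := hwd W hW1 hWY (fun _ => rr)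
    rw [← h𝒜, ← hN] at h1
    rw [← Finset.card_pos]
    have h3 := (abs_le.mp h1).1
    have h4 : (s₀.card : ℝ) * Y ^ (-((n : ℝ) + 1)) < N := by
      rw [hN, lt_div_iff₀ hWn, hYn]
      have h5 : Real.exp (-(((n : ℝ) + 1) * L)) * (W : ℝ) ^ n < 1 := by
        calc Real.exp (-(((n : ℝ) + 1) * L)) * (W : ℝ) ^ n
            ≤ Real.exp (-(((n : ℝ) + 1) * L)) * Real.exp (n * (L / 50)) :=
              mul_le_mul_of_nonneg_left hWnle (Real.exp_pos _).le
          _ = Real.exp (-(((n : ℝ) + 1) * L) + n * (L / 50)) := by rw [← Real.exp_add]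
          _ < 1 := by
              rw [Real.exp_lt_one_iff]
              nlinarith
      calc (s₀.card : ℝ) * Real.exp (-(((n : ℝ) + 1) * L)) * (W : ℝ) ^ n
          = s₀.card * (Real.exp (-(((n : ℝ) + 1) * L)) * (W : ℝ) ^ n) := by ring
        _ < s₀.card * 1 := mul_lt_mul_of_pos_left h5 hs₀c
        _ = s₀.card := mul_one _
    have : (0:ℝ) < (𝒜.card : ℝ) := by linarith
    exact_mod_cast this
  rcases Rs.eq_empty_or_nonempty with hemp | hne
  · obtain ⟨a, ha⟩ := h𝒜ne
    exact hfin a ha (fun j k hk => by rw [hemp] at hk; exact absurd hk (Finset.notMem_empty k))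
  · have : Nonempty (↥Rs) := hne.to_subtype
    have hrho : ∀ (k : ↥Rs) (p : ℕ), p.Prime → rho (k : ℤ[X]) p = r (rep k).1 p := by
      intro k p hp
      rw [← hrep2 k, rho_comp _ _ hp]
    have hLb : 2 * L ^ b ≤ L ^ (b + 1) := by
      rw [pow_succ, mul_comm (L ^ b)]
      exact mul_le_mul_of_nonneg_right (by linarith) (by positivity)
    have huniq : ∀ p : ℕ, p.Prime → L ^ A < (p : ℝ) → ∀ (a : ℤ) (P Q : ↥Rs),
        (p : ℤ) ∣ (P : ℤ[X]).eval a → (p : ℤ) ∣ (Q : ℤ[X]).eval a → P = Q := by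
      intro p hp hpA a P Q h1 h2
      by_contra hPQ
      have e1 : (P : ℤ[X]).eval a = ((rep P).1 : ℤ[X]).eval (a + (rep P).2) := by
        rw [← hrep2 P, eval_comp]
        simp
      have e2 : (Q : ℤ[X]).eval a =
          ((rep Q).1 : ℤ[X]).eval ((a + (rep P).2) + ((rep Q).2 - (rep P).2)) := by
        rw [← hrep2 Q, eval_comp]
        congr 1
        simp
      rw [e1] at h1
      rw [e2] at h2
      refine hT₀ ((rep P).1, (rep Q).1) L ((hqM _ (Finset.mem_univ _)).trans hLT) p hp hpA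
        ((rep Q).2 - (rep P).2) ?_ ?_ _ h1 h2
      · have b1 := hS _ (hrep1 P)
        have b2 := hS _ (hrep1 Q)
        push_cast
        calc |((rep Q).2 : ℝ) - ((rep P).2 : ℝ)| ≤ |((rep Q).2 : ℝ)| + |((rep P).2 : ℝ)| :=
              abs_sub _ _
          _ ≤ L ^ (b + 1) := by linarith
      · intro h3
        apply hPQ
        apply Subtype.ext
        rw [← hrep2 P, ← hrep2 Q]
        have h4 := congrArg (fun g : ℤ[X] => g.comp (X + Polynomial.C (rep P).2)) h3
        simp only [comp_assoc] at h4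
        rw [← h4]
        congr 1
        simp
    -- the residues killed by some colour
    have hrRs : ∀ (k : ↥Rs) (p : ℕ), p.Prime → L ^ A < (p : ℝ) → rho (k : ℤ[X]) p ≤ d := by
      intro k p hp hpA
      rw [hrho _ p hp]
      apply hrd _ p hp
      have e2 : L ≤ L ^ A := le_self_pow₀ (by linarith) (by omega)
      have e3 : (B : ℝ) < p := by linarith
      exact_mod_cast e3
    set U : ℕ → Finset ℕ := fun p =>
      (Finset.range p).filter (fun a : ℕ => ∃ P ∈ Rs, (p : ℤ) ∣ P.eval (a : ℤ)) with hU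
    have hUr : ∀ p, U p ⊆ Finset.range p := fun p => Finset.filter_subset _ _
    have hUc : ∀ p : ℕ, p.Prime → L ^ A < (p : ℝ) → ((U p).card : ℝ) ≤ Rs.card * d := by
      intro p hp hpA
      have h1 : U p ⊆ Rs.biUnion (fun P => (Finset.range p).filter (fun a : ℕ => (p : ℤ) ∣ P.eval (a : ℤ))) := by
        intro a ha
        rw [hU] at ha
        simp only [Finset.mem_filter] at ha
        obtain ⟨h1, P, hP, h2⟩ := ha
        rw [Finset.mem_biUnion]
        exact ⟨P, hP, Finset.mem_filter.2 ⟨h1, h2⟩⟩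
      have h2 := (Finset.card_le_card h1).trans (Finset.card_biUnion_le_card_mul _ _ d (by
        intro P hP
        exact hrRs ⟨P, hP⟩ p hp hpA))
      exact_mod_cast h2
    have hRsne := this
    obtain ⟨k₀⟩ := hRsne
    have hRsc : (n : ℝ) * (Rs.card : ℝ) ≤ c * L * l := by
      refine (hcard k₀).trans ?_
      have h1 : Real.exp (-(Sg (r (rep k₀).1) (L ^ A))) ≤ 1 := by
        rw [Real.exp_le_one_iff, neg_nonpos]
        exact Finset.sum_nonneg fun p _ => div_nonneg (Nat.cast_nonneg _) (Nat.cast_nonneg _)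
      calc c * L * l * Real.exp (-(Sg (r (rep k₀).1) (L ^ A))) ≤ c * L * l * 1 :=
            mul_le_mul_of_nonneg_left h1 (by positivity)
        _ = _ := mul_one _
    have hUθ : ∀ p : ℕ, p.Prime → L ^ A < (p : ℝ) → (n : ℝ) * (((U p).card : ℝ) / p) ≤ 1 / (2 * L) := by
      intro p hp hpA
      have hp0 : (0 : ℝ) < p := by exact_mod_cast hp.pos
      have h4 : L ^ 4 ≤ L ^ A := pow_le_pow_right₀ (by linarith) hA4
      have hlL : l ≤ L := by
        rw [hll]
        linarith [Real.log_le_sub_one_of_pos hLpos]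
      have h5 : (n : ℝ) * ((U p).card : ℝ) ≤ d * (c * L * l) := by
        calc (n : ℝ) * ((U p).card : ℝ) ≤ n * (Rs.card * d) :=
              mul_le_mul_of_nonneg_left (hUc p hp hpA) hnR.le
          _ = d * (n * Rs.card) := by ring
          _ ≤ d * (c * L * l) := mul_le_mul_of_nonneg_left hRsc (Nat.cast_nonneg _)
      rw [← mul_div_assoc, div_le_div_iff₀ hp0 (by positivity), one_mul]
      have h6 : (n : ℝ) * ((U p).card : ℝ) * (2 * L) ≤ d * (c * L * l) * (2 * L) :=
        mul_le_mul_of_nonneg_right h5 (by positivity)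
      have h7 : d * (c * L * l) * (2 * L) ≤ L ^ 4 := by
        have e1 : d * (c * L * l) * (2 * L) = (2 * (d * c)) * (L ^ 2 * l) := by ring
        rw [e1]
        have e2 : L ^ 2 * l ≤ L ^ 2 * L := mul_le_mul_of_nonneg_left hlL (by positivity)
        calc (2 * (d * c)) * (L ^ 2 * l) ≤ L * (L ^ 2 * L) :=
              mul_le_mul hLdc e2 (by positivity) hLpos.le
          _ = L ^ 4 := by ring
      linarith
    have hdvd : ∀ (p : ℕ), p.Prime → ∀ (P : ℤ[X]) (a : α) (j : Fin n),
        (p : ℤ) ∣ P.eval (res n p (w₀ a) j : ℤ) → (p : ℤ) ∣ P.eval (w₀ a j) := by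
      intro p hp P a j h
      exact (eval_dvd_congr P p _ _ (dvd_sub_res hp.pos (w₀ a) j)).2 h
    obtain ⟨a, ha, hac⟩ := hcov Y a1 (Fin n × (↥Rs)) (fun k => (rep k.2).1)
      (fun k => by
        rw [Fintype.card_prod, Fintype.card_fin, Fintype.card_coe]
        push_cast
        exact hcard k.2)
      α (fun p a k => res n p (w₀ a) ∈ Bset p (k.2 : ℤ[X]) (U p) k.1)
      (by
        intro p hp hpA _ a k k' h1 h2
        simp only [Bset, Fintype.mem_piFinset] at h1 h2
        have h1a := h1 k.1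
        rw [if_pos rfl, Finset.mem_filter] at h1a
        have h2a := h2 k'.1
        rw [if_pos rfl, Finset.mem_filter] at h2a
        have hj : k.1 = k'.1 := by
          by_contra hne
          have h1b := h1 k'.1
          rw [if_neg (Ne.symm hne), Finset.mem_sdiff] at h1b
          apply h1b.2
          rw [hU]
          simp only [Finset.mem_filter]
          exact ⟨h2a.1, k'.2, k'.2.2, h2a.2⟩
        have hP : k.2 = k'.2 := by
          rw [← hj] at h2a
          exact huniq p hp hpA _ _ _ h1a.2 h2a.2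
        exact Prod.ext hj hP)
      (fun p k => ((Bset p (k.2 : ℤ[X]) (U p) k.1).card : ℝ) / (p : ℝ) ^ n)
      (by
        intro p hp hpA _ k
        have h1 := dens_Bset p hp.pos (k.2 : ℤ[X]) (U p) (hUr p) k.1 (1 / (2 * L)) (hUθ p hp hpA)
        rw [hrho _ p hp] at h1
        exact h1)
      𝒜 N ((Y ^ (1 / 4 : ℝ)) ^ n * (s₀.card * Y ^ (-((n : ℝ) + 1)))) hN0
      (mul_nonneg (pow_nonneg (Real.rpow_nonneg hY0.le _) _)
        (mul_nonneg (Nat.cast_nonneg _) (Real.rpow_nonneg hY0.le _))) (by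
        rw [hYn, hYr, hYr, hN]
        have e1 : (Real.exp (1 / 4 * L)) ^ n = Real.exp (n * (1 / 4 * L)) := by
          rw [Real.exp_nat_mul]
        have e2 : (s₀.card : ℝ) / (W : ℝ) ^ n * Real.exp (-(2 / 5) * L) =
            (s₀.card * Real.exp (-(2 / 5) * L)) / (W : ℝ) ^ n := by ring
        rw [e1, e2, le_div_iff₀ hWn]
        calc Real.exp (n * (1 / 4 * L)) * (s₀.card * Real.exp (-(((n : ℝ) + 1) * L))) * (W : ℝ) ^ n
            ≤ Real.exp (n * (1 / 4 * L)) * (s₀.card * Real.exp (-(((n : ℝ) + 1) * L))) *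
              Real.exp (n * (L / 50)) := mul_le_mul_of_nonneg_left hWnle
                (mul_nonneg (Real.exp_pos _).le (mul_nonneg (Nat.cast_nonneg _) (Real.exp_pos _).le))
          _ = s₀.card * (Real.exp (n * (1 / 4 * L)) * Real.exp (-(((n : ℝ) + 1) * L)) *
              Real.exp (n * (L / 50))) := by ring
          _ = s₀.card * Real.exp (n * (1 / 4 * L) + -(((n : ℝ) + 1) * L) + n * (L / 50)) := by
              rw [← Real.exp_add, ← Real.exp_add]
          _ ≤ s₀.card * Real.exp (-(2 / 5) * L) := by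
              apply mul_le_mul_of_nonneg_left _ hs₀c.le
              apply Real.exp_le_exp.mpr
              nlinarith)
      (by
        intro T s hTX hT
        have hTp : ∀ p ∈ T, p.Prime := fun p hp => (hT p hp).1
        have hTW : ∀ p ∈ T, ¬ p ∣ W := fun p hp => PR_not_dvd hw0 (hT p hp).1 (by
            have e1 := (hT p hp).2
            have e2 : L ≤ L ^ A := le_self_pow₀ (by linarith) (by omega)
            rw [hw]
            linarith)
        have hcopW : Nat.Coprime W (∏ p ∈ T, p) := Nat.Coprime.prod_right fun p hp =>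
          (Nat.Coprime.symm ((Nat.Prime.coprime_iff_not_dvd (hTp p hp)).2 (hTW p hp)))
        have hq1 : 1 ≤ ∏ p ∈ T, p := Finset.prod_pos fun p hp => (hTp p hp).pos
        have hqY : ((∏ p ∈ T, p : ℕ) : ℝ) ≤ Y ^ (1 / 4 : ℝ) := by
          push_cast
          exact hTX
        have h1 := count_vec n T hTp (fun p => Bset p ((s p).2 : ℤ[X]) (U p) (s p).1)
          (fun p hp => Bset_lt p _ _ _) 𝒜 w₀ N (s₀.card * Y ^ (-((n : ℝ) + 1)))
          (mul_nonneg (Nat.cast_nonneg _) (Real.rpow_nonneg hY0.le _)) (by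
            intro c₁
            obtain ⟨ρ, hρ⟩ := crt_two W (∏ p ∈ T, p) hcopW (fun _ : Fin n => rr) c₁
            have h2 := hwd (W * ∏ p ∈ T, p) (Nat.mul_pos hW1 hq1) (by
              push_cast
              calc (W : ℝ) * ∏ p ∈ T, (p : ℝ) ≤ Real.exp (L / 50) * Real.exp (1 / 4 * L) := by
                    apply mul_le_mul hWle _ (Finset.prod_nonneg fun _ _ => Nat.cast_nonneg _)
                      (Real.exp_pos _).le
                    rw [← hYr]
                    exact hTX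
                _ = Real.exp (L / 50 + 1 / 4 * L) := by rw [← Real.exp_add]
                _ ≤ Y := by
                    rw [hYexp]
                    exact Real.exp_le_exp.mpr (by linarith)) ρ
            have h3 : s₀.filter (fun i => ∀ j, ((W * ∏ p ∈ T, p : ℕ) : ℤ) ∣ w₀ i j - ρ j) =
                𝒜.filter (fun a => ∀ j, ((∏ p ∈ T, p : ℕ) : ℤ) ∣ w₀ a j - c₁ j) := by
              ext x
              rw [h𝒜, Finset.mem_filter, Finset.mem_filter, Finset.mem_filter, hρ (w₀ x), and_assoc]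
            rw [h3] at h2
            have h4 : (s₀.card : ℝ) / ((W * ∏ p ∈ T, p : ℕ) : ℝ) ^ n =
                N / ((∏ p ∈ T, p : ℕ) : ℝ) ^ n := by
              rw [hN, Nat.cast_mul, mul_pow, div_div]
            rw [h4] at h2
            exact h2)
        refine le_trans (le_of_eq ?_) (h1.trans ?_)
        · congr!
        · apply mul_le_mul_of_nonneg_right _
            (mul_nonneg (Nat.cast_nonneg _) (Real.rpow_nonneg hY0.le _))
          exact pow_le_pow_left₀ (Nat.cast_nonneg _) hqY n)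
    exact hfin a ha (fun j k hk => by
      obtain ⟨p, hp, _, hpY, hpd⟩ := hac (j, ⟨k, hk⟩)
      refine ⟨p, hp, hpY, hdvd p hp k a j ?_⟩
      simp only [Bset, Fintype.mem_piFinset] at hpd
      have h1 := hpd j
      rw [if_pos rfl, Finset.mem_filter] at h1
      exact h1.2)

end Pool.Agent.N542.PU
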